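import Pool.Agent.Lib.MP_9b3446_nt.E

/-!
# Every gap `δ ≥ 0` between `w_{kn}(ξ)` and `w_n(ξ^k)` is realised

We construct `ξ` as the limit of an alternating sequence of approximations: rational numbers
`a / 3^m` at distance about `3^{-m(w+1)}`, and `k`-th roots `(a / 3^m)^{1/k}` at distance about
`3^{-m(v+1)}`, with `v` large and `w = v + δ`.
-/

set_option autoImplicit false

namespace Pool.Agent.Results.MP_9b3446_nt.ExponentGapRealised

open Polynomial Pool.Agent.Lib.MP_9b3446_nt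
open scoped NNReal ENNReal

lemma pow_sub_pow_lower {k e : ℕ} (he : 1 ≤ e) (hek : e ≤ k) {α ξ : ℝ} (hα : 1/2 ≤ α)
    (h : α ≤ ξ) : (ξ - α) * (1/2) ^ k ≤ ξ ^ e - α ^ e := by
  obtain ⟨e', rfl⟩ : ∃ e', e = e' + 1 := ⟨e - 1, by omega⟩
  have h1 : α ^ e' ≤ ξ ^ e' := by gcongr
  have h2 : (1/2 : ℝ) ^ k ≤ α ^ e' := by
    calc (1/2 : ℝ) ^ k ≤ (1/2) ^ e' := pow_le_pow_of_le_one (by norm_num) (by norm_num) (by omega)
      _ ≤ α ^ e' := by gcongr
  have h3 : 0 ≤ ξ - α := by linarith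
  have h4 : 0 ≤ ξ := by linarith
  calc (ξ - α) * (1/2) ^ k ≤ (ξ - α) * α ^ e' := by gcongr
    _ ≤ ξ * ξ ^ e' - α * α ^ e' := by nlinarith
    _ = _ := by ring

lemma pow_sub_pow_upper {e : ℕ} {α ξ : ℝ} (hα : 0 ≤ α) (h : α ≤ ξ) (h1 : ξ ≤ 1) :
    ξ ^ e - α ^ e ≤ e * (ξ - α) := by
  induction e with
  | zero => simp
  | succ e ih =>
    have h2 : ξ ^ e ≤ 1 := pow_le_one₀ (by linarith) h1
    have h3 : 0 ≤ ξ ^ e - α ^ e := by
      have : α ^ e ≤ ξ ^ e := by gcongr
      linarith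
    push_cast
    calc ξ ^ (e+1) - α ^ (e+1) = ξ ^ e * (ξ - α) + α * (ξ ^ e - α ^ e) := by ring
      _ ≤ 1 * (ξ - α) + 1 * (ξ ^ e - α ^ e) := by
          have : 0 ≤ ξ - α := by linarith
          have : α ≤ 1 := by linarith
          gcongr
      _ ≤ 1 * (ξ - α) + 1 * (e * (ξ - α)) := by gcongr
      _ = _ := by ring

/-- **Main theorem.**  For all integers `n ≥ 1`, `k ≥ 2` and every real `δ ≥ 0` there is a real
transcendental number `ξ` with `w_{kn}(ξ) = w_n(ξ^k) + δ` and `w_{kn}^*(ξ) = w_n^*(ξ^k) + δ`,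
all four exponents being finite. -/
theorem result (n k : ℕ) (hn : 1 ≤ n) (hk : 2 ≤ k) (δ : ℝ) (hδ : 0 ≤ δ) :
    ∃ ξ : ℝ, Transcendental ℚ ξ ∧
      mahlerExp (k * n) ξ ≠ ⊤ ∧ mahlerExp n (ξ ^ k) ≠ ⊤ ∧
      koksmaExp (k * n) ξ ≠ ⊤ ∧ koksmaExp n (ξ ^ k) ≠ ⊤ ∧
      mahlerExp (k * n) ξ = mahlerExp n (ξ ^ k) + ENNReal.ofReal δ ∧
      koksmaExp (k * n) ξ = koksmaExp n (ξ ^ k) + ENNReal.ofReal δ := by
  classical
  set N : ℕ := k * n with hN
  have hN1 : 1 ≤ N := by rw [hN]; exact Nat.one_le_iff_ne_zero.mpr (by positivity)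
  have hkN : k ≤ N := by rw [hN]; exact Nat.le_mul_of_pos_right k hn
  have hnN : n ≤ N := by rw [hN]; exact Nat.le_mul_of_pos_left n (by omega)
  set v : ℝ := max ((2 * k * N + k : ℕ) : ℝ) δ with hv
  set w : ℝ := v + δ with hw
  have hv1 : ((2 * k * N + k : ℕ) : ℝ) ≤ v := le_max_left _ _
  have hv2 : δ ≤ v := le_max_right _ _
  have hvw : v ≤ w := by linarith
  have hv0 : 0 ≤ v := le_trans (Nat.cast_nonneg _) hv1
  have hw0 : 0 ≤ w := hv0.trans hvw
  let e : ℕ → ℕ := fun i => if i % 2 = 0 then 1 else k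
  let u : ℕ → ℝ := fun i => if i % 2 = 0 then w else v
  have he : ∀ i, 1 ≤ e i := by intro i; simp only [e]; split_ifs <;> omega
  have hek : ∀ i, e i ≤ k := by intro i; simp only [e]; split_ifs <;> omega
  have hu : ∀ i, v ≤ u i := by intro i; simp only [u]; split_ifs <;> linarith
  have huw : ∀ i, u i ≤ w := by intro i; simp only [u]; split_ifs <;> linarith
  obtain ⟨m, a, α, ξ, htr, hξ1, hα, hDa, ha12, hm0, hlo, hhi, hr1, hr2⟩ :=
    exists_seq k e he hek rfl u (fun i => hv0.trans (hu i))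
  set r : ℕ → ℝ := fun i => rad (m i) (u i) with hr
  set C1 : ℝ := 3 * (240 * 2 ^ k) with hC1
  have hrpos : ∀ i, 0 < r i := fun i => rad_pos _ _
  let D : ℕ → ℕ := fun i => 3 ^ m i
  have hDcast : ∀ i, ((D i : ℕ) : ℝ) = (3 : ℝ) ^ m i := by intro i; simp [D]
  have hDpos : ∀ i, 0 < D i := fun i => by simp only [D]; positivity
  have hDpos' : ∀ i, (0 : ℝ) < D i := fun i => by exact_mod_cast hDpos i
  have hDge1 : ∀ i, (1 : ℝ) ≤ D i := fun i => by exact_mod_cast hDpos i
  have hrD : ∀ i, r i = (D i : ℝ) ^ (-(u i + 1)) := by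
    intro i; rw [hDcast]; rfl
  have hαξ : ∀ i, α i ≤ ξ := fun i => by
    have h1 := hlo i; have h2 : 0 < rad (m i) (u i) := hrpos i; linarith
  have hα1 : ∀ i, α i ≤ 1 := fun i => (hαξ i).trans hξ1
  have hξhalf : 1/2 ≤ ξ := (hα 0).trans (hαξ 0)
  have hdist : ∀ i, |ξ - α i| ≤ 2 * r i := by
    intro i
    rw [abs_of_nonneg (by linarith [hαξ i])]
    have h1 := hhi i
    simp only [hr]; linarith
  have hdist2 : ∀ i, r i ≤ ξ - α i := by
    intro i
    have h1 := hlo i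
    simp only [hr]; linarith
  have hDα : ∀ i, (D i : ℝ) * α i ^ e i = a i := by intro i; rw [hDcast]; exact hDa i
  have haD : ∀ i, a i ≤ D i := by
    intro i
    have h1 : α i ^ e i ≤ 1 := pow_le_one₀ (by linarith [hα i]) (hα1 i)
    have h2 : (a i : ℝ) ≤ D i := by
      rw [← hDα i]
      nlinarith [hDpos' i]
    exact_mod_cast h2
  have hD0 : 2 ≤ D 0 := by simp only [D, hm0]; norm_num
  have hgrow : ∀ i, D i ^ (2 * N) ≤ D (i+1) := by
    intro i
    have h1 : 1 ≤ r i * D (i+1) := by rw [hDcast]; exact hr1 i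
    have h2 : (D i : ℝ) ^ (u i + 1) ≤ D (i+1) := by
      rw [hrD, Real.rpow_neg (hDpos' i).le] at h1
      have h3 : (0 : ℝ) < (D i : ℝ) ^ (u i + 1) := Real.rpow_pos_of_pos (hDpos' i) _
      rwa [inv_mul_eq_div, le_div_iff₀ h3, one_mul] at h1
    have h3 : ((D i ^ (2 * N) : ℕ) : ℝ) ≤ (D i : ℝ) ^ (u i + 1) := by
      push_cast
      rw [← Real.rpow_natCast]
      apply Real.rpow_le_rpow_of_exponent_le (hDge1 i)
      have h4 : ((2 * N : ℕ) : ℝ) ≤ ((2 * k * N + k : ℕ) : ℝ) := by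
        have : 2 * N ≤ 2 * k * N + k := by nlinarith
        exact_mod_cast this
      linarith [hu i]
    exact_mod_cast h3.trans h2
  have hDge2 : ∀ i, 2 ≤ D i := by
    intro i
    induction i with
    | zero => exact hD0
    | succ i ih =>
      have h1 : D i ^ 1 ≤ D i ^ (2 * N) := Nat.pow_le_pow_right (by omega) (by omega)
      rw [pow_one] at h1
      exact ih.trans (h1.trans (hgrow i))
  have hDmono : StrictMono D := by
    apply strictMono_nat_of_lt_succ
    intro i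
    have h1 : D i ^ 2 ≤ D i ^ (2 * N) := Nat.pow_le_pow_right (by have := hDge2 i; omega) (by omega)
    have h2 := hgrow i
    have h3 := hDge2 i
    nlinarith
  have hrD1 : ∀ i, r i * D (i+1) ≤ C1 := by intro i; rw [hDcast]; exact hr2 i
  -- arithmetic of the data
  have hDodd : ∀ i, D i % 2 = 1 := by
    intro i; simp only [D]; rw [Nat.pow_mod]; simp
  have hcop : ∀ i, Nat.Coprime (D i) (a i) := by
    intro i
    simp only [D]
    apply Nat.Coprime.pow_left
    rw [Nat.Prime.coprime_iff_not_dvd Nat.prime_three]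
    have := ha12 i; omega
  have hDr : ∀ i, (D i : ℝ) * r i = (D i : ℝ) ^ (-(u i)) := by
    intro i
    rw [hrD]
    calc (D i : ℝ) * (D i : ℝ) ^ (-(u i + 1)) = (D i : ℝ) ^ (1 : ℝ) * (D i : ℝ) ^ (-(u i + 1)) := by
          rw [Real.rpow_one]
      _ = _ := by rw [← Real.rpow_add (hDpos' i)]; congr 1; ring
  have hC1 : 0 ≤ C1 := by rw [hC1]; positivity
  -- the first lower bound, at `ξ`
  obtain ⟨c1, hc1, hlow1⟩ := lower_bound (M := N) (κ := k) (L := N) (w := w) (ζ := ξ) (G := D)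
    (g := a) (e := e) (D := D) (β := α) (Cc := 2 * C1) (c := (1/2) ^ k) (by omega) hN1
    ⟨by linarith, hξ1⟩ (fun i => ⟨by linarith [hα i], hα1 i⟩) (by positivity) hDpos haD he hek
    (fun i => irreducible_binom (he i) (hcop i) (hDodd i) (by have := ha12 i; omega))
    (fun i => isPrimitive_binom (he i) (hcop i)) hDα
    (by
      intro i
      calc |ξ - α i| * D (i+1) ≤ (2 * r i) * D (i+1) := by gcongr; exact hdist i
        _ = 2 * (r i * D (i+1)) := by ring
        _ ≤ 2 * C1 := by gcongr; exact hrD1 i)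
    (by
      intro i
      have h1 := pow_sub_pow_lower (he i) (hek i) (hα i) (hαξ i)
      have h2 : (D i : ℝ) ^ (-w) ≤ (D i : ℝ) * r i := by
        rw [hDr]
        exact Real.rpow_le_rpow_of_exponent_le (hDge1 i) (by linarith [huw i])
      calc (1/2 : ℝ) ^ k * (D i : ℝ) ^ (-w) ≤ (1/2 : ℝ) ^ k * ((D i : ℝ) * r i) := by gcongr
        _ ≤ (1/2 : ℝ) ^ k * ((D i : ℝ) * (ξ - α i)) := by
            have := hDpos' i
            gcongr; exact hdist2 i
        _ = (D i : ℝ) * ((ξ - α i) * (1/2) ^ k) := by ring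
        _ ≤ (D i : ℝ) * (ξ ^ e i - α i ^ e i) := by
            have := hDpos' i
            gcongr
        _ = (D i : ℝ) * ξ ^ e i - a i := by rw [mul_sub, hDα]
        _ ≤ _ := le_abs_self _)
    (fun i => le_rfl) hD0 hgrow (by linarith)
  -- data for `ξ ^ k`
  let G2 : ℕ → ℕ := fun i => if i % 2 = 0 then D i ^ k else D i
  let g2 : ℕ → ℕ := fun i => if i % 2 = 0 then a i ^ k else a i
  have hG2pos : ∀ i, 0 < G2 i := by
    intro i; simp only [G2]; split_ifs
    · exact Nat.pow_pos (hDpos i)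
    · exact hDpos i
  have hg2G2 : ∀ i, g2 i ≤ G2 i := by
    intro i; simp only [G2, g2]; split_ifs
    · exact Nat.pow_le_pow_left (haD i) k
    · exact haD i
  have hcop2 : ∀ i, Nat.Coprime (G2 i) (g2 i) := by
    intro i; simp only [G2, g2]; split_ifs
    · exact Nat.Coprime.pow k k (hcop i)
    · exact hcop i
  have hβ2 : ∀ i, (G2 i : ℝ) * (α i ^ k) ^ 1 = g2 i := by
    intro i
    have h1 := hDα i
    simp only [e] at h1
    simp only [G2, g2]
    split_ifs at h1 ⊢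
    · push_cast
      rw [← h1]; ring
    · rw [pow_one]; exact h1
  have hξk : 0 ≤ ξ ^ k ∧ ξ ^ k ≤ 1 := ⟨by positivity, pow_le_one₀ (by linarith) hξ1⟩
  have hαk : ∀ i, 0 ≤ α i ^ k ∧ α i ^ k ≤ 1 := fun i =>
    ⟨by have := hα i; positivity, pow_le_one₀ (by linarith [hα i]) (hα1 i)⟩
  have hdistk : ∀ i, |ξ ^ k - α i ^ k| ≤ 2 * k * r i := by
    intro i
    have h1 := pow_sub_pow_upper (e := k) (by linarith [hα i] : 0 ≤ α i) (hαξ i) hξ1
    have h2 : α i ^ k ≤ ξ ^ k := by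
      have := hα i; have := hαξ i; gcongr
    rw [abs_of_nonneg (by linarith)]
    have h3 := hdist i
    rw [abs_of_nonneg (by linarith [hαξ i])] at h3
    calc ξ ^ k - α i ^ k ≤ k * (ξ - α i) := h1
      _ ≤ k * (2 * r i) := by gcongr
      _ = _ := by ring
  have hn2 : ((2 * 1 * N + 1 : ℕ) : ℝ) ≤ v := by
    refine le_trans ?_ hv1
    have : 2 * 1 * N + 1 ≤ 2 * k * N + k := by nlinarith
    exact_mod_cast this
  obtain ⟨c2, hc2, hlow2⟩ := lower_bound (M := n) (κ := 1) (L := N) (w := v) (ζ := ξ ^ k)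
    (G := G2) (g := g2) (e := fun _ => 1) (D := D) (β := fun i => α i ^ k) (Cc := 2 * k * C1)
    (c := (1/2) ^ k) le_rfl hN1 hξk hαk (by positivity) hG2pos hg2G2 (fun _ => le_rfl)
    (fun _ => le_rfl) (fun i => irreducible_binom_one (hG2pos i) (hcop2 i))
    (fun i => isPrimitive_binom le_rfl (hcop2 i)) hβ2
    (by
      intro i
      calc |ξ ^ k - α i ^ k| * D (i+1) ≤ (2 * k * r i) * D (i+1) := by gcongr; exact hdistk i
        _ = 2 * k * (r i * D (i+1)) := by ring
        _ ≤ 2 * k * C1 := by gcongr; exact hrD1 i)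
    (by
      intro i
      have h1 := pow_sub_pow_lower (e := k) (by omega) le_rfl (hα i) (hαξ i)
      have hGpos : (0 : ℝ) < G2 i := by exact_mod_cast hG2pos i
      have h2 : (G2 i : ℝ) ^ (-v) ≤ (G2 i : ℝ) * r i := by
        simp only [G2]
        by_cases hi : i % 2 = 0
        · rw [if_pos hi]
          have hui : u i = w := by simp only [u]; rw [if_pos hi]
          push_cast
          rw [hrD, hui, ← Real.rpow_natCast, ← Real.rpow_mul (hDpos' i).le,
            ← Real.rpow_add (hDpos' i)]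
          apply Real.rpow_le_rpow_of_exponent_le (hDge1 i)
          have hk' : (2 : ℝ) ≤ k := by exact_mod_cast hk
          nlinarith
        · rw [if_neg hi]
          have hui : u i = v := by simp only [u]; rw [if_neg hi]
          rw [hDr, hui]
      calc (1/2 : ℝ) ^ k * (G2 i : ℝ) ^ (-v) ≤ (1/2 : ℝ) ^ k * ((G2 i : ℝ) * r i) := by gcongr
        _ ≤ (1/2 : ℝ) ^ k * ((G2 i : ℝ) * (ξ - α i)) := by
            gcongr; exact hdist2 i
        _ = (G2 i : ℝ) * ((ξ - α i) * (1/2) ^ k) := by ring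
        _ ≤ (G2 i : ℝ) * (ξ ^ k - α i ^ k) := by gcongr
        _ = (G2 i : ℝ) * (ξ ^ k) ^ 1 - g2 i := by rw [← hβ2 i]; ring
        _ ≤ _ := le_abs_self _)
    (by
      intro i
      simp only [G2]
      split_ifs
      · rw [← pow_mul]
      · exact Nat.pow_le_pow_right (hDpos i) hnN)
    hD0 hgrow hn2
  -- the four exponents
  have hup1 := mahlerExp_le N ξ w c1 hw0 hc1 hlow1
  have hup2 := koksmaExp_le N ξ w c1 hw0 hc1 ⟨by linarith, hξ1⟩ hlow1
  have hup3 := mahlerExp_le n (ξ ^ k) v c2 hv0 hc2 hlow2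
  have hup4 := koksmaExp_le n (ξ ^ k) v c2 hv0 hc2 hξk hlow2
  have hei : ∀ j, e (2 * j) = 1 := by intro j; simp only [e]; rw [if_pos (by omega)]
  have hui : ∀ j, u (2 * j) = w := by intro j; simp only [u]; rw [if_pos (by omega)]
  have hui' : ∀ j, u (2 * j + 1) = v := by intro j; simp only [u]; rw [if_neg (by omega)]
  have hG2o : ∀ j, G2 (2 * j + 1) = D (2 * j + 1) := by
    intro j; simp only [G2]; rw [if_neg (by omega)]
  obtain ⟨hlo1, hlo2⟩ := le_exponents N ξ w c1 2 hc1 ⟨by linarith, hξ1⟩ hlow1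
    (fun j => D (2 * j)) (fun j => a (2 * j)) 1 (fun j => α (2 * j))
    (fun i j hij => hDmono (by omega)) (fun j => hDpos _) (fun j => haD _) le_rfl hN1
    (fun j => irreducible_binom_one (hDpos _) (hcop _))
    (fun j => isPrimitive_binom le_rfl (hcop _))
    (fun j => ⟨by linarith [hα (2 * j)], hα1 _⟩)
    (by
      intro j
      have := hDα (2 * j)
      rwa [hei j] at this)
    (by
      intro j
      have h1 := hdist (2 * j)
      rw [hrD, hui j] at h1
      rw [show -w - 1 = -(w + 1) by ring]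
      exact h1)
  obtain ⟨hlo3, hlo4⟩ := le_exponents n (ξ ^ k) v c2 (2 * k) hc2 hξk hlow2
    (fun j => G2 (2 * j + 1)) (fun j => g2 (2 * j + 1)) 1 (fun j => α (2 * j + 1) ^ k)
    (fun i j hij => by
      simp only [hG2o]
      exact hDmono (by omega)) (fun j => hG2pos _) (fun j => hg2G2 _) le_rfl hn
    (fun j => irreducible_binom_one (hG2pos _) (hcop2 _))
    (fun j => isPrimitive_binom le_rfl (hcop2 _))
    (fun j => hαk _) (fun j => hβ2 _)
    (by
      intro j
      have h1 := hdistk (2 * j + 1)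
      rw [hrD, hui' j] at h1
      simp only [hG2o]
      rw [show -v - 1 = -(v + 1) by ring]
      exact h1)
  have e1 : mahlerExp N ξ = ENNReal.ofReal w := le_antisymm hup1 hlo1
  have e2 : koksmaExp N ξ = ENNReal.ofReal w := le_antisymm hup2 hlo2
  have e3 : mahlerExp n (ξ ^ k) = ENNReal.ofReal v := le_antisymm hup3 hlo3
  have e4 : koksmaExp n (ξ ^ k) = ENNReal.ofReal v := le_antisymm hup4 hlo4
  refine ⟨ξ, htr, ?_, ?_, ?_, ?_, ?_, ?_⟩
  · rw [e1]; exact ENNReal.ofReal_ne_top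
  · rw [e3]; exact ENNReal.ofReal_ne_top
  · rw [e2]; exact ENNReal.ofReal_ne_top
  · rw [e4]; exact ENNReal.ofReal_ne_top
  · rw [e1, e3, hw, ENNReal.ofReal_add hv0 hδ]
  · rw [e2, e4, hw, ENNReal.ofReal_add hv0 hδ]

end Pool.Agent.Results.MP_9b3446_nt.ExponentGapRealised
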